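import Pool.Agent.H66.IP.TA

/-!
# Board ipf_modules, row SQA: the product of two differences on a square
-/

set_option autoImplicit false

namespace Pool.Agent.H19.IP

open Finset Pool.Agent.H6.NB Pool.Agent.H66.IP

private theorem mul_bound {x y u v : ℝ} (hx : 0 ≤ x) (hv : 0 ≤ v) (h1 : x ≤ u) (h2 : y ≤ v) :
    x * y ≤ u * v :=
  (mul_le_mul_of_nonneg_left h2 hx).trans (mul_le_mul_of_nonneg_right h1 hv)

private theorem sqa_core {g00 g10 g01 g11 a00 a10 a01 a11 b00 b10 b01 b11 : ℝ}
    (p00 : 0 ≤ a00) (p10 : 0 ≤ a10) (p01 : 0 ≤ a01) (p11 : 0 ≤ a11)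
    (q00 : 0 ≤ b00) (q10 : 0 ≤ b10) (q01 : 0 ≤ b01) (q11 : 0 ≤ b11)
    (h1 : g00 - g10 ≤ a00) (h2 : g10 - g00 ≤ a10) (h3 : g01 - g11 ≤ a01)
    (k1 : g00 - g01 ≤ b00) (k2 : g01 - g00 ≤ b01) (k3 : g10 - g11 ≤ b10)
    (l1 : g11 - g00 ≤ a11 + b11) :
    |g00 - g10| * |g00 - g01| ≤
      2 * ((a00 * (b00 + b10) + b00 * (a00 + a01)) + (a10 * (b10 + b00) + b10 * (a10 + a11)) +
        (a01 * (b01 + b11) + b01 * (a01 + a00)) + (a11 * (b11 + b01) + b11 * (a11 + a10))) := by
  -- all the products are nonnegative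
  have m1 := mul_nonneg p00 q00
  have m2 := mul_nonneg p00 q10
  have m3 := mul_nonneg p01 q00
  have m4 := mul_nonneg p10 q10
  have m5 := mul_nonneg p10 q00
  have m6 := mul_nonneg p11 q10
  have m7 := mul_nonneg p01 q01
  have m8 := mul_nonneg p01 q11
  have m9 := mul_nonneg p00 q01
  have m10 := mul_nonneg p11 q11
  have m11 := mul_nonneg p11 q01
  have m12 := mul_nonneg p10 q11
  rcases le_total g10 g00 with hx | hx
  · have ex : |g00 - g10| = g00 - g10 := abs_of_nonneg (by linarith)
    rcases le_total g01 g00 with hy | hy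
    · have ey : |g00 - g01| = g00 - g01 := abs_of_nonneg (by linarith)
      rw [ex, ey]
      have := mul_bound (x := g00 - g10) (y := g00 - g01) (by linarith) q00 h1 k1
      linarith
    · have ey : |g00 - g01| = g01 - g00 := by
        rw [abs_of_nonpos (by linarith)]
        ring
      rw [ex, ey]
      have := mul_bound (x := g00 - g10) (y := g01 - g00) (by linarith) q01 h1 k2
      linarith
  · have ex : |g00 - g10| = g10 - g00 := by
      rw [abs_of_nonpos (by linarith)]
      ring
    rcases le_total g01 g00 with hy | hy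
    · have ey : |g00 - g01| = g00 - g01 := abs_of_nonneg (by linarith)
      rw [ex, ey]
      have := mul_bound (x := g10 - g00) (y := g00 - g01) (by linarith) q00 h2 k1
      linarith
    · have ey : |g00 - g01| = g01 - g00 := by
        rw [abs_of_nonpos (by linarith)]
        ring
      rw [ex, ey]
      obtain ⟨dx, hdx⟩ : ∃ dx, dx = g10 - g00 := ⟨_, rfl⟩
      obtain ⟨dy, hdy⟩ : ∃ dy, dy = g01 - g00 := ⟨_, rfl⟩
      obtain ⟨s, hs⟩ : ∃ s, s = g11 - g00 := ⟨_, rfl⟩
      rw [← hdx, ← hdy]
      have hdx0 : 0 ≤ dx := by linarith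
      have hdy0 : 0 ≤ dy := by linarith
      have hax : dx ≤ a10 := by linarith
      have hby : dy ≤ b01 := by linarith
      have hb10 : dx - s ≤ b10 := by linarith
      have ha01 : dy - s ≤ a01 := by linarith
      have hs11 : s ≤ a11 + b11 := by linarith
      -- `a11 * dy + b11 * dx` is at most the last corner
      have e1 : a11 * dy ≤ a11 * b01 := mul_le_mul_of_nonneg_left hby p11
      have e2 : b11 * dx ≤ b11 * a10 := mul_le_mul_of_nonneg_left hax q11
      rcases le_total dy dx with hxy | hxy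
      · rcases lt_or_ge s (dx / 2) with h | h
        · have f1 : dx * (dx / 2) ≤ a10 * b10 :=
            mul_bound hdx0 q10 hax (by linarith)
          have f2 : dx * dy ≤ dx * dx := mul_le_mul_of_nonneg_left hxy hdx0
          linarith
        · have f1 : b11 * dy ≤ b11 * dx := mul_le_mul_of_nonneg_left hxy q11
          have f2 : s * dy ≤ (a11 + b11) * dy := mul_le_mul_of_nonneg_right hs11 hdy0
          have f3 : dx / 2 * dy ≤ s * dy := mul_le_mul_of_nonneg_right h hdy0
          linarith
      · rcases lt_or_ge s (dy / 2) with h | h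
        · have f1 : dy / 2 * dy ≤ a01 * b01 :=
            mul_bound (by linarith) q01 (by linarith) hby
          have f2 : dx * dy ≤ dy * dy := mul_le_mul_of_nonneg_right hxy hdy0
          linarith
        · have f1 : a11 * dx ≤ a11 * dy := mul_le_mul_of_nonneg_left hxy p11
          have f2 : s * dx ≤ (a11 + b11) * dx := mul_le_mul_of_nonneg_right hs11 hdx0
          have f3 : dy / 2 * dx ≤ s * dx := mul_le_mul_of_nonneg_right h hdx0
          linarith

theorem pf_SQA : T_SQA := by
  intro g a a' h i _ j _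
  have key : ∀ i j : Bool, |g i j - g (!i) j| * |g i j - g i (!j)| ≤
      2 * (ow a a' i j + ow a a' (!i) j + ow a a' i (!j) + ow a a' (!i) (!j)) := by
    intro i j
    have h1 := h.da i j
    have h2 := h.da (!i) j
    have h3 := h.da i (!j)
    have k1 := h.db i j
    have k2 := h.db i (!j)
    have k3 := h.db (!i) j
    have l1 := h.dab (!i) (!j)
    rw [Bool.not_not] at h2 k2
    rw [Bool.not_not, Bool.not_not] at l1
    have := sqa_core (h.a0 i j) (h.a0 (!i) j) (h.a0 i (!j)) (h.a0 (!i) (!j)) (h.b0 i j)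
      (h.b0 (!i) j) (h.b0 i (!j)) (h.b0 (!i) (!j)) h1 h2 h3 k1 k2 k3 l1
    simpa only [ow, Bool.not_not] using this
  have hk := key i j
  cases i <;> cases j <;> simp only [Bool.not_true, Bool.not_false] at hk ⊢ <;>
    first
      | linarith
      | (rw [abs_sub_comm (g true _) (g false _)]; linarith)
      | (rw [abs_sub_comm (g _ true) (g _ false)]; linarith)
      | (rw [abs_sub_comm (g true _) (g false _), abs_sub_comm (g _ true) (g _ false)]
         linarith)

end Pool.Agent.H19.IP
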